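import Mathlib

/-!
# Numbers with a simultaneous measure and quotients of polynomials in a well approximable number

Let the real numbers `x i` have a measure of simultaneous rational approximation with exponent `M`, and let
`ξ` have rational approximations `a / b` with errors at most `b ^ (-κ)`, `κ > M d`, with arbitrarily large `b`.
Then the numbers `x i` are not all quotients `A i (ξ) / B (ξ)` with integer polynomials of degree at most `d`.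
-/

set_option autoImplicit false

open Polynomial Filter Topology

namespace Pool.Agent.K6.H69.QL

/-- clearing the denominator -/
theorem clear (a : ℤ) (b : ℕ) (hb : 0 < b) (d : ℕ) (P : ℤ[X]) (hP : P.natDegree ≤ d) :
    ∃ D : ℤ, (D : ℝ) = (b : ℝ) ^ d * aeval ((a : ℝ) / b) P := by
  have hbR : (b : ℝ) ≠ 0 := by
    have : (0 : ℝ) < b := by exact_mod_cast hb
    exact this.ne'
  have bu : (b : ℝ)⁻¹ * (algebraMap ℤ ℝ (b : ℤ)) = 1 := by
    simp [hbR]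
  obtain ⟨D, bi, h1, h2⟩ := denomsClearable_of_natDegree_le (i := algebraMap ℤ ℝ) d a bu P hP
  refine ⟨D, ?_⟩
  have h3 : bi = (b : ℝ)⁻¹ := by
    have h4 : (algebraMap ℤ ℝ (b : ℤ)) = (b : ℝ) := by simp
    rw [h4] at h1
    exact eq_inv_of_mul_eq_one_left h1
  rw [h3] at h2
  have h5 : (algebraMap ℤ ℝ D) = (D : ℝ) := by simp
  have h6 : (algebraMap ℤ ℝ (b : ℤ)) = (b : ℝ) := by simp
  have h7 : (algebraMap ℤ ℝ a) = (a : ℝ) := by simp
  rw [h5, h6, h7] at h2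
  rw [h2, aeval_def, eval_map, div_eq_mul_inv]

theorem quant {ι : Type} [Finite ι] (x : ι → ℝ) (c : ℝ) (hc : 0 < c) (M : ℕ)
    (hm : ∀ (a : ι → ℤ) (q : ℕ), 0 < q → ∃ i, c / (q : ℝ) ^ M ≤ |x i - a i / q|)
    (d κ : ℕ) (hκ : M * d < κ) (ξ : ℝ)
    (hξ : ∀ H : ℕ, ∃ (a : ℤ) (b : ℕ), H ≤ b ∧ 1 ≤ b ∧ |ξ - a / b| ≤ 1 / (b : ℝ) ^ κ)
    (A : ι → ℤ[X]) (B : ℤ[X]) (hA : ∀ i, (A i).natDegree ≤ d) (hB : B.natDegree ≤ d)
    (hB0 : aeval ξ B ≠ 0) : ∃ i, x i ≠ aeval ξ (A i) / aeval ξ B := by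
  classical
  by_contra hcon
  push Not at hcon
  have hO : ∀ i, ∃ C : ℝ, ∀ᶠ y in 𝓝 ξ,
      |aeval y (A i) / aeval y B - aeval ξ (A i) / aeval ξ B| ≤ C * |y - ξ| := by
    intro i
    have h1 : DifferentiableAt ℝ (fun y : ℝ => aeval y (A i) / aeval y B) ξ :=
      ((A i).differentiable_aeval ξ).div (B.differentiable_aeval ξ) hB0
    obtain ⟨C, hC⟩ := h1.isBigO_sub.bound
    exact ⟨C, hC⟩
  choose C hC using hO
  have := Fintype.ofFinite ι
  obtain ⟨C1, hC1⟩ : ∃ C1 : ℝ, C1 = ∑ i, |C i| := ⟨_, rfl⟩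
  have hC1i : ∀ i, C i ≤ C1 := by
    intro i
    rw [hC1]
    exact (le_abs_self _).trans
      (Finset.single_le_sum (f := fun i => |C i|) (fun j _ => abs_nonneg _) (Finset.mem_univ i))
  have hC10 : 0 ≤ C1 := by
    rw [hC1]
    exact Finset.sum_nonneg fun j _ => abs_nonneg _
  obtain ⟨M1, hM1⟩ : ∃ M1 : ℝ, M1 = |aeval ξ B| + 1 := ⟨_, rfl⟩
  have hM10 : 0 < M1 := by
    rw [hM1]
    positivity
  have hcont : ContinuousAt (fun y : ℝ => aeval y B) ξ := (B.differentiable_aeval ξ).continuousAt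
  have e1 : ∀ᶠ y in 𝓝 ξ, aeval y B ≠ 0 := hcont.eventually_ne hB0
  have e2 : ∀ᶠ y in 𝓝 ξ, |aeval y B| < M1 :=
    hcont.abs.eventually_lt continuousAt_const (by rw [hM1]; exact lt_add_one _)
  have e3 : ∀ᶠ y in 𝓝 ξ, ∀ i, |aeval y (A i) / aeval y B - aeval ξ (A i) / aeval ξ B| ≤
      C i * |y - ξ| := eventually_all.2 hC
  obtain ⟨δ, hδ, hall⟩ := Metric.eventually_nhds_iff.1 ((e1.and e2).and e3)
  obtain ⟨H, hH⟩ := exists_nat_gt (max (1 / δ) (C1 * M1 ^ M / c))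
  obtain ⟨a, b, hHb, hb1, hab⟩ := hξ H
  have hb0 : (0 : ℝ) < b := by exact_mod_cast hb1
  have hb1R : (1 : ℝ) ≤ b := by exact_mod_cast hb1
  have hHbR : (H : ℝ) ≤ b := by exact_mod_cast hHb
  have hb2 : 1 / δ < b := lt_of_le_of_lt (le_max_left _ _) (hH.trans_le hHbR)
  have hb3 : C1 * M1 ^ M / c < b := lt_of_le_of_lt (le_max_right _ _) (hH.trans_le hHbR)
  have hκ1 : 1 ≤ κ := by omega
  have hnear : dist ((a : ℝ) / b) ξ < δ := by
    rw [Real.dist_eq, abs_sub_comm]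
    refine lt_of_le_of_lt hab ?_
    have h1 : 1 / (b : ℝ) ^ κ ≤ 1 / b :=
      one_div_le_one_div_of_le hb0 (le_self_pow₀ hb1R (by omega))
    refine lt_of_le_of_lt h1 ?_
    rw [div_lt_iff₀ hδ] at hb2
    rw [div_lt_iff₀ hb0]
    linarith
  obtain ⟨⟨hBy, hBy2⟩, hFy⟩ := hall hnear
  have hu : ∀ i, ∃ D : ℤ, (D : ℝ) = (b : ℝ) ^ d * aeval ((a : ℝ) / b) (A i) :=
    fun i => clear a b hb1 d (A i) (hA i)
  choose u hu using hu
  obtain ⟨v, hv⟩ := clear a b hb1 d B hB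
  have hbd : (b : ℝ) ^ d ≠ 0 := pow_ne_zero _ hb0.ne'
  have hv0 : (v : ℝ) ≠ 0 := by
    rw [hv]
    exact mul_ne_zero hbd hBy
  have hquot : ∀ i, (u i : ℝ) / v = aeval ((a : ℝ) / b) (A i) / aeval ((a : ℝ) / b) B := by
    intro i
    rw [hu, hv, mul_div_mul_left _ _ hbd]
  obtain ⟨q, a', hq, hqv, ha'⟩ : ∃ (q : ℕ) (a' : ι → ℤ), 0 < q ∧ (q : ℝ) = |(v : ℝ)| ∧
      ∀ i, (a' i : ℝ) / q = (u i : ℝ) / v := by
    have hvZ : v ≠ 0 := by
      intro h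
      apply hv0
      rw [h]
      simp
    refine ⟨v.natAbs, fun i => v.sign * u i, Int.natAbs_pos.2 hvZ, ?_, ?_⟩
    · rw [Nat.cast_natAbs, Int.cast_abs]
    · intro i
      have h1 : ((v.natAbs : ℕ) : ℝ) = (v.sign : ℝ) * v := by
        have h2 : |v| = v.sign * v := by
          rw [Int.abs_eq_natAbs]
          exact (Int.sign_mul_self_eq_natAbs v).symm
        rw [Nat.cast_natAbs, h2]
        push_cast
        rfl
      have h3 : (v.sign : ℝ) ≠ 0 := by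
        have : v.sign ≠ 0 := by rwa [Ne, Int.sign_eq_zero_iff_zero]
        exact_mod_cast this
      rw [h1]
      push_cast
      rw [mul_div_mul_left _ _ h3]
  obtain ⟨i, hi⟩ := hm a' q hq
  have hi2 : |x i - (a' i : ℝ) / q| ≤ C1 / (b : ℝ) ^ κ := by
    rw [ha', hquot, hcon i, abs_sub_comm]
    refine (hFy i).trans ?_
    calc C i * |(a : ℝ) / b - ξ| ≤ C1 * |(a : ℝ) / b - ξ| :=
          mul_le_mul_of_nonneg_right (hC1i i) (abs_nonneg _)
      _ ≤ C1 * (1 / (b : ℝ) ^ κ) := by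
          rw [abs_sub_comm]
          exact mul_le_mul_of_nonneg_left hab hC10
      _ = C1 / (b : ℝ) ^ κ := by ring
  have hqle : (q : ℝ) ≤ (b : ℝ) ^ d * M1 := by
    rw [hqv, hv, abs_mul, abs_of_pos (by positivity : (0 : ℝ) < (b : ℝ) ^ d)]
    exact mul_le_mul_of_nonneg_left hBy2.le (by positivity)
  have hq0 : (0 : ℝ) < q := by exact_mod_cast hq
  have h1 : c / (q : ℝ) ^ M ≤ C1 / (b : ℝ) ^ κ := hi.trans hi2
  rw [div_le_div_iff₀ (by positivity) (by positivity)] at h1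
  have h2 : (q : ℝ) ^ M ≤ (b : ℝ) ^ (M * d) * M1 ^ M := by
    calc (q : ℝ) ^ M ≤ ((b : ℝ) ^ d * M1) ^ M := pow_le_pow_left₀ hq0.le hqle M
      _ = (b : ℝ) ^ (M * d) * M1 ^ M := by rw [mul_pow, ← pow_mul, mul_comm d M]
  obtain ⟨e, he⟩ : ∃ e, κ = M * d + (e + 1) := ⟨κ - M * d - 1, by omega⟩
  have h3 : c * (b : ℝ) ^ κ ≤ C1 * ((b : ℝ) ^ (M * d) * M1 ^ M) :=
    h1.trans (mul_le_mul_of_nonneg_left h2 hC10)
  rw [he, pow_add] at h3
  have h4 : (b : ℝ) ^ (M * d) * (c * (b : ℝ) ^ (e + 1)) ≤ (b : ℝ) ^ (M * d) * (C1 * M1 ^ M) := by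
    calc _ = c * ((b : ℝ) ^ (M * d) * (b : ℝ) ^ (e + 1)) := by ring
      _ ≤ _ := h3
      _ = _ := by ring
  have h5 := le_of_mul_le_mul_left h4 (by positivity)
  have h6 : (b : ℝ) ≤ (b : ℝ) ^ (e + 1) := le_self_pow₀ hb1R (by omega)
  rw [div_lt_iff₀ hc] at hb3
  have h7 : c * (b : ℝ) ≤ c * (b : ℝ) ^ (e + 1) := mul_le_mul_of_nonneg_left h6 hc.le
  linarith

end Pool.Agent.K6.H69.QL
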